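import Pool.Agent.Helper79K9.King.Fin
import Pool.Agent.Helper79K9.King.Rec
import Pool.Agent.Helper79K9.King.Clo
import Pool.Agent.Helper79K9.King.Comp

/-!
# Locally compact king spaces are compact

Every locally compact Hausdorff king space which admits at least one continuous weak selection is
compact.
-/

set_option autoImplicit false

namespace Pool.Agent.Results.MP_abcfaf_gt.LocallyCompactKingSpaces

open Topology Set Filter
open Pool.Agent.Helper79K9.King

universe u

/-- `φ` is a weak selection on `X`: it chooses an element of every unordered pair of points. (For a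
pair `{a, a}` the only possible value is `a`; these values are never used below.) -/
def IsWeakSelection {X : Type u} (φ : Sym2 X → X) : Prop := ∀ s : Sym2 X, φ s ∈ s

/-- `a → b` in the tournament of `φ`: `a = b`, or `a ≠ b` and `φ` chooses `b` from `{a, b}` -/
def Arrow {X : Type u} (φ : Sym2 X → X) (a b : X) : Prop := a = b ∨ (a ≠ b ∧ φ s(a, b) = b)

/-- `z` is a king of `φ`: every point is reached from `z` in at most two steps. -/
def IsKing {X : Type u} (φ : Sym2 X → X) (z : X) : Prop :=
  ∀ x, ∃ y, Arrow φ z y ∧ Arrow φ y x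

/-- continuity of a weak selection -/
def IsContinuous {X : Type u} [TopologicalSpace X] (φ : Sym2 X → X) : Prop :=
  ∀ a b : X, a ≠ b → ∀ W : Set X, IsOpen W → φ s(a, b) ∈ W →
    ∃ U V : Set X, IsOpen U ∧ IsOpen V ∧ a ∈ U ∧ b ∈ V ∧
      ∀ a' ∈ U, ∀ b' ∈ V, a' ≠ b' → φ s(a', b') ∈ W

/-- `X` is a king space: every continuous weak selection on `X` has a king. -/
def IsKingSpace (X : Type u) [TopologicalSpace X] : Prop :=
  ∀ φ : Sym2 X → X, IsWeakSelection φ → IsContinuous φ → ∃ z, IsKing φ z

theorem ct_of_sel {X : Type u} [TopologicalSpace X] [T2Space X] {φ : Sym2 X → X}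
    (h1 : IsWeakSelection φ) (h2 : IsContinuous φ) : CT (fun a b => φ s(a, b) = b) where
  refl := fun a => by
    have := h1 s(a, a)
    rw [Sym2.mem_iff] at this
    simpa using this
  tot := fun a b hab => by
    have h3 := h1 s(a, b)
    rw [Sym2.mem_iff] at h3
    rw [Sym2.eq_swap (a := b) (b := a)]
    constructor
    · intro h4 h5
      exact hab (h5.symm.trans h4)
    · intro h4
      rcases h3 with h3 | h3
      · exact absurd h3 h4
      · exact h3
  cont := fun a b hab hr => by
    obtain ⟨A, B, hA, hB, haA, hbB, hAB⟩ := t2_separation hab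
    obtain ⟨U, V, hU, hV, haU, hbV, hUV⟩ := h2 a b hab B hB (by rw [hr]; exact hbB)
    have h3 : (U ∩ A) ×ˢ (V ∩ B) ∈ 𝓝 (a, b) :=
      prod_mem_nhds ((hU.inter hA).mem_nhds ⟨haU, haA⟩) ((hV.inter hB).mem_nhds ⟨hbV, hbB⟩)
    filter_upwards [h3] with p hp
    obtain ⟨⟨hp1, hp2⟩, hp3, hp4⟩ := hp
    have hne : p.1 ≠ p.2 := fun h => disjoint_left.1 hAB hp2 (h ▸ hp4)
    have h4 := hUV p.1 hp1 p.2 hp3 hne
    have h5 := h1 s(p.1, p.2)
    rw [Sym2.mem_iff] at h5
    rcases h5 with h5 | h5
    · rw [h5] at h4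
      exact absurd h4 (disjoint_left.1 hAB hp2)
    · exact h5

theorem not_king_of_KL {X : Type u} [TopologicalSpace X] [T2Space X] (h : KL X) :
    ¬ IsKingSpace X := by
  classical
  obtain ⟨R, hR, hK⟩ := h
  intro hX
  let φ : Sym2 X → X := Sym2.lift ⟨fun a b => if R a b then b else a, by
    intro a b
    by_cases hab : a = b
    · subst hab; rfl
    · have h1 := hR.tot a b hab
      by_cases h2 : R a b
      · have h3 : ¬ R b a := h1.1 h2
        simp [h2, h3]
      · have h3 : R b a := by
          by_contra h3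
          exact h2 (h1.2 h3)
        simp [h2, h3]⟩
  have hφ : ∀ a b, φ s(a, b) = if R a b then b else a := fun a b => rfl
  have h1 : IsWeakSelection φ := by
    intro s
    induction s using Sym2.ind with
    | _ a b =>
      rw [hφ, Sym2.mem_iff]
      by_cases h : R a b
      · simp [h]
      · simp [h]
  have h2 : IsContinuous φ := by
    intro a b hab W hW hmem
    have hev := hR.ev hab
    rw [hφ] at hmem
    by_cases h : R a b
    · rw [if_pos h] at hmem
      have h3 : ∀ᶠ p : X × X in 𝓝 (a, b), p.2 ∈ W :=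
        (continuous_snd.tendsto (a, b)).eventually (hW.mem_nhds hmem)
      have h4 := hev.and h3
      obtain ⟨U, V, hU, haU, hV, hbV, hUV⟩ := mem_nhds_prod_iff'.1 h4
      refine ⟨U, V, hU, hV, haU, hbV, fun a' ha' b' hb' _ => ?_⟩
      have h5 := hUV (Set.mk_mem_prod ha' hb')
      rw [hφ, if_pos (h5.1.2 h)]
      exact h5.2
    · rw [if_neg h] at hmem
      have h3 : ∀ᶠ p : X × X in 𝓝 (a, b), p.1 ∈ W :=
        (continuous_fst.tendsto (a, b)).eventually (hW.mem_nhds hmem)
      have h4 := hev.and h3
      obtain ⟨U, V, hU, haU, hV, hbV, hUV⟩ := mem_nhds_prod_iff'.1 h4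
      refine ⟨U, V, hU, hV, haU, hbV, fun a' ha' b' hb' _ => ?_⟩
      have h5 := hUV (Set.mk_mem_prod ha' hb')
      rw [hφ, if_neg (fun h6 => h (h5.1.1 h6))]
      exact h5.2
  have harr : ∀ a b, Arrow φ a b → R a b := by
    rintro a b (h | ⟨h3, h4⟩)
    · subst h; exact hR.refl a
    · rw [hφ] at h4
      by_contra h5
      rw [if_neg h5] at h4
      exact h3 h4
  obtain ⟨z, hz⟩ := hX φ h1 h2
  obtain ⟨x, hx⟩ := hK z
  obtain ⟨y, hy1, hy2⟩ := hz x
  exact hx y (harr _ _ hy1) (harr _ _ hy2)

/-- Every locally compact Hausdorff king space admitting at least one continuous weak selection is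
compact. -/
theorem result (X : Type u) [TopologicalSpace X] [T2Space X] [LocallyCompactSpace X]
    (hsel : ∃ φ : Sym2 X → X, IsWeakSelection φ ∧ IsContinuous φ) (hking : IsKingSpace X) :
    CompactSpace X := by
  obtain ⟨φ, h1, h2⟩ := hsel
  have hR := ct_of_sel h1 h2
  have hKL : ¬ KL X := fun h => not_king_of_KL h hking
  have hcomp : ∀ x : X, IsCompact (connectedComponent x) := comp X _ hR hKL
  have E : Env (fun a b : X => φ s(a, b) = b) := by
    refine ⟨hR, fun x => ?_, recl clo X _ hR hcomp, fun ν hν => ?_⟩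
    · obtain ⟨V, hV, hVc, hxV, -⟩ := clo X x univ (hcomp x) isOpen_univ (subset_univ _)
      exact ⟨V, hV, hVc, hxV mem_connectedComponent⟩
    · by_contra hb
      push Not at hb
      exact hKL (rank hR ν hν hb)
  constructor
  by_contra hX
  exact hKL (E.final hX)

end Pool.Agent.Results.MP_abcfaf_gt.LocallyCompactKingSpaces
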